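import Pool.Agent.H.MP_f4cb44_an.Fwd

open Filter Topology Finset

namespace Pool.Agent.H.MP_f4cb44_an

lemma tl {l : ℕ → ℝ} {N : ℝ → ℕ} (hN : Good l N) {d ε : ℝ} (e0 : 0 < ε) (m : ℕ) :
    (N ε * ε ^ d - m * ε ^ d) * (ε / ε ^ d) ≤ T l m := by
  have := hN.1 ε e0 m
  have e1 : 0 < ε ^ d := by positivity
  calc _ = N ε * ε - m * ε := by field_simp
    _ ≤ _ := by linarith

lemma up {l : ℕ → ℝ} {N : ℝ → ℕ} (hN : Good l N) (hs : Summable l) (h0 : ∀ j, 0 < l j)
    (ha : Antitone l) {d c b : ℝ} (hd : 0 < d) (d1 : d < 1) (hc : 0 < c)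
    (hb : ∀ᶠ j : ℕ in atTop, (j + 1) * l j ^ d ≤ b)
    (h : Tendsto (fun ε => N ε * ε ^ d) (𝓝[>] 0) (𝓝 c)) {x : ℝ} (hx : c * (1 - d) < x) :
    ∀ᶠ j : ℕ in atTop, (j + 1) * l j ^ d < x := by
  set a : ℕ → ℝ := fun j => (j + 1) * l j ^ d with ha'
  have a0 : ∀ j, 0 ≤ a j := fun j => by have := h0 j; positivity
  have b1 : IsBoundedUnder (· ≤ ·) atTop a := isBoundedUnder_of_eventually_le hb
  have b2 : IsCoboundedUnder (· ≤ ·) atTop a := isCoboundedUnder_le_of_le atTop a0
  refine eventually_lt_of_limsup_lt (lt_of_le_of_lt ?_ hx) b1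
  by_contra hk
  rw [not_le] at hk
  set κ := limsup a atTop
  have A0 : 0 < c * (1 - d) := mul_pos hc (by linarith)
  have k0 : 0 < κ := A0.trans hk
  set t := c * (1 - d) / κ with ht
  have t0 : 0 < t := by positivity
  have t1 : t < 1 := (div_lt_one k0).2 hk
  set θ := t ^ d⁻¹ with hθ
  have θ0 : 0 < θ := by positivity
  have θ1 : θ < 1 := Real.rpow_lt_one t0.le t1 (by positivity)
  have θd : θ ^ d = t := Real.rpow_inv_rpow t0.le hd.ne'
  have ber := rpow_one_add_lt_one_add_mul_self (s := θ - 1) (by linarith) (by linarith) hd d1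
  rw [add_sub_cancel, θd] at ber
  have kt : κ * t = c * (1 - d) := by rw [ht]; field_simp
  set r := θ / t with hr
  have r0 : 0 < r := by positivity
  have r1 : r ≤ 1 := by simpa [θd] using mono d1.le θ0 θ1.le
  have rt : r * t = θ := by rw [hr]; field_simp
  have φ1 : c - κ < c * d * r := by
    refine lt_of_mul_lt_mul_right (a := t) ?_ t0.le
    have := mul_lt_mul_of_pos_left ber hc
    rw [mul_assoc, rt, sub_mul, kt]
    linarith
  have φ0 : 0 < c * d * r := by positivity
  set δ := (c * d * r - max (c - κ) 0) / 8 with hδ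
  have δ0 : 0 < δ := by have := max_lt φ1 φ0; linarith
  have m1 := le_max_left (c - κ) 0
  have m2 := le_max_right (c - κ) 0
  set μ := c * d * r - 2 * δ with hμ
  have tl0 : ∀ s : ℝ, 0 < s → Tendsto (fun j => s * l j) atTop (𝓝[>] 0) := fun s s0 =>
    tendsto_nhdsWithin_iff.2 ⟨by simpa using hs.tendsto_atTop_zero.const_mul s,
      Eventually.of_forall fun j => mul_pos s0 (h0 j)⟩
  have e1 : ∀ᶠ j in atTop, μ * (l j / l j ^ d) < T l (j + 1) := by
    filter_upwards [(h.comp (tl0 θ θ0)).eventually (lt_mem_nhds (a := c - δ) (by linarith)),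
      eventually_lt_of_limsup_lt (lt_add_of_pos_right κ δ0) b1] with j h1 h2
    have l0 := h0 j
    have h3 := tl hN (d := d) (mul_pos θ0 l0) (j + 1)
    simp only [Function.comp] at h1
    have e : (θ * l j) ^ d = t * l j ^ d := by rw [Real.mul_rpow θ0.le l0.le, θd]
    have e2 : θ * l j / (θ * l j) ^ d = r * (l j / l j ^ d) := by rw [e, hr]; field_simp
    have e3 : ((j + 1 : ℕ) : ℝ) * (θ * l j) ^ d = t * a j := by rw [e, ha']; push_cast; ring
    rw [e2, e3, ← mul_assoc] at h3
    refine lt_of_lt_of_le (mul_lt_mul_of_pos_right ?_ (by positivity)) h3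
    have h4 : c - δ - t * (κ + δ) < N (θ * l j) * (θ * l j) ^ d - t * a j := by
      have := mul_lt_mul_of_pos_left h2 t0
      linarith
    refine lt_of_le_of_lt ?_ (mul_lt_mul_of_pos_right h4 r0)
    have h5 : δ * r ≤ δ := mul_le_of_le_one_right δ0.le r1
    have h6 : δ * (r * t) ≤ δ := mul_le_of_le_one_right δ0.le (rt ▸ θ1.le)
    have h7 : (c - δ - t * (κ + δ)) * r = c * d * r - δ * r - δ * (r * t) := by
      have : t * κ = c * (1 - d) := by linarith
      rw [mul_add, this]; ring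
    linarith
  obtain ⟨J, hJ⟩ := eventually_atTop.1 e1
  have t2 := tl0 1 one_pos
  simp only [one_mul] at t2
  obtain ⟨m, h1, h2, h3, h4⟩ := ((frequently_lt_of_lt_limsup b2 (sub_lt_self κ δ0)).and_eventually
    (((h.comp t2).eventually (gt_mem_nhds (lt_add_of_pos_right c δ0))).and
      ((t2.eventually (small hd δ0)).and (eventually_ge_atTop J)))).exists
  have h5 := LB hN h0 ha hd.le (h0 m) (μ := μ) (by linarith) (m := m) (fun j hj => ha hj.le) le_rfl
    ((hJ m h4).trans_le (by rw [T_succ hs m]; linarith [h0 m])) fun j hj => hJ j (by omega)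
  simp only [Function.comp, ha'] at h1 h2
  linarith

lemma bwd {l : ℕ → ℝ} {N : ℝ → ℕ} (hN : Good l N) (hs : Summable l) (h0 : ∀ j, 0 < l j)
    (ha : Antitone l) {d q c b : ℝ} (hd : 0 < d) (hq : 0 < q) (hdq : d * (q + 1) = 1) (hc : 0 < c)
    (hb : ∀ᶠ j : ℕ in atTop, l j * (j + 1) ^ (q + 1) ≤ b)
    (h : Tendsto (fun ε => N ε * ε ^ d) (𝓝[>] 0) (𝓝 c)) :
    Tendsto (fun j : ℕ => l j * (j + 1) ^ (q + 1)) atTop (𝓝 ((c * (1 - d)) ^ (q + 1))) := by
  have d1 : d < 1 := by nlinarith
  have u0 : ∀ j : ℕ, 0 < l j * (j + 1) ^ (q + 1) := fun j => by have := h0 j; positivity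
  have hb' : ∀ᶠ j : ℕ in atTop, (j + 1) * l j ^ d ≤ b ^ d := hb.mono fun j hj => by
    rw [← pw hdq (h0 j)]; exact Real.rpow_le_rpow (u0 j).le hj hd.le
  set A := c * (1 - d) with hA
  have A0 : 0 < A := mul_pos hc (by linarith)
  set L := A ^ (q + 1) with hL
  have L0 : 0 < L := by positivity
  have LA : L ^ d = A := by rw [hL, ← Real.rpow_mul A0.le, mul_comm, hdq, Real.rpow_one]
  have U : ∀ x, L < x → ∀ᶠ j : ℕ in atTop, l j * (j + 1) ^ (q + 1) < x := fun x hx => by
    filter_upwards [up hN hs h0 ha hd d1 hc hb' h (x := x ^ d)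
      (LA.symm.trans_lt (Real.rpow_lt_rpow L0.le hx hd))] with j hj
    rwa [← pw hdq (h0 j), Real.rpow_lt_rpow_iff (u0 j).le (L0.trans hx).le hd] at hj
  refine tendsto_order.2 ⟨fun y hy => ?_, U⟩
  have V : ∀ B, B < L → ∀ᶠ m : ℕ in atTop, B * (m ^ (-q) / q) < T l m := fun B hB => by
    have t1 : Tendsto (fun m : ℕ => (A / m) ^ (q + 1)) atTop (𝓝[>] 0) := by
      refine tendsto_nhdsWithin_iff.2 ⟨?_, (eventually_gt_atTop 0).mono fun m hm => ?_⟩
      · have := (tendsto_const_div_atTop_nhds_zero_nat A).rpow_const (p := q + 1)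
          (Or.inr (by linarith))
        rwa [Real.zero_rpow (by linarith)] at this
      · have : (0 : ℝ) < m := by exact_mod_cast hm
        exact Set.mem_Ioi.2 (by positivity)
    have e : q * (c - A) * A ^ q = L := by
      rw [hL, Real.rpow_add A0, Real.rpow_one, mul_comm (A ^ q)]
      congr 1
      rw [hA]
      linear_combination c * hdq
    have t2 := ((((h.comp t1).sub_const A).const_mul q).mul_const (A ^ q)).eventually
      (lt_mem_nhds (e ▸ hB))
    filter_upwards [t2, eventually_gt_atTop 0] with m h1 hm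
    have m0 : (0 : ℝ) < m := by exact_mod_cast hm
    have z0 : 0 < A / m := by positivity
    have h2 := tl hN (d := d) (ε := (A / m) ^ (q + 1)) (by positivity) m
    have e1 : ((A / m) ^ (q + 1)) ^ d = A / m := by
      rw [← Real.rpow_mul z0.le, mul_comm, hdq, Real.rpow_one]
    have e2 : (A / m) ^ (q + 1) / (A / m) = A ^ q * m ^ (-q) := by
      rw [Real.rpow_add z0, Real.rpow_one, mul_div_cancel_right₀ _ z0.ne',
        Real.div_rpow A0.le m0.le, Real.rpow_neg m0.le, div_eq_mul_inv]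
    simp only [Function.comp] at h1
    rw [e1] at h1 h2
    rw [e2, mul_div_cancel₀ _ m0.ne'] at h2
    refine lt_of_lt_of_le (mul_lt_mul_of_pos_right h1 (by positivity)) (le_of_eq_of_le ?_ h2)
    field_simp
  have c1 : Tendsto (fun η : ℝ => L * (1 + 2 * η) ^ (-(q + 1))) (𝓝[>] 0)
      (𝓝 (L * (1 + 2 * 0) ^ (-(q + 1)))) :=
    ((((continuous_const.add (continuous_const.mul continuous_id)).tendsto 0).rpow_const
      (Or.inl (by simp))).const_mul L).mono_left nhdsWithin_le_nhds
  rw [mul_zero, add_zero, Real.one_rpow, mul_one] at c1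
  obtain ⟨η, h1, η0⟩ := ((c1.eventually (lt_mem_nhds hy)).and self_mem_nhdsWithin).exists
  have η0 : 0 < η := η0
  set w := (1 + 2 * η) ^ (-(q + 1)) with hw
  have w0 : 0 < w := by positivity
  set s := (L * w - y) * (q * η) / 2 with hs'
  have s0 : 0 < s := by have := sub_pos.2 h1; positivity
  obtain ⟨J, hJ⟩ := eventually_atTop.1 (U (L + s / 2) (by linarith))
  filter_upwards [V (L - s / 2) (by linarith), eventually_ge_atTop J, eventually_gt_atTop 0,
    tendsto_natCast_atTop_atTop.eventually_ge_atTop (1 / η)] with m h2 hm hm0 h3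
  have m0 : (0 : ℝ) < m := by exact_mod_cast hm0
  set k := ⌊η * m⌋₊ + 1 with hk
  have k1 : η * m < k := by push_cast [hk]; exact Nat.lt_floor_add_one _
  have k2 : (k : ℝ) ≤ 2 * η * m := by
    have := Nat.floor_le (a := η * m) (by positivity)
    rw [div_le_iff₀ η0] at h3
    push_cast [hk]; linarith
  have k0 : (0 : ℝ) < k := lt_trans (by positivity) k1
  have h4 := T_add hs ha m k
  have h5 := tail_le hs hq (B := L + s / 2) (by linarith) (m := m + k) (by omega)
    fun i hi => (hJ i (by omega)).le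
  have h6 := (mvt hq m0 (lt_add_of_pos_right _ k0)).1
  push_cast at h5
  rw [add_sub_cancel_left] at h6
  have h7 : w * m ^ (-(q + 1)) ≤ ((m : ℝ) + k) ^ (-(q + 1)) := by
    rw [hw, ← Real.mul_rpow (by positivity) m0.le]
    exact Real.rpow_le_rpow_of_nonpos (by positivity) (by linarith) (by linarith)
  set P := (m : ℝ) ^ (-(q + 1)) with hP
  have P0 : 0 < P := by positivity
  have e1 : (m : ℝ) ^ (-q) = m * P := by
    rw [hP, show -q = 1 + -(q + 1) by ring, Real.rpow_add m0, Real.rpow_one]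
  have h8 : s * ((m : ℝ) ^ (-q) / q) ≤ k * ((L * w - y) / 2 * P) := by
    have := sub_pos.2 h1
    calc _ = η * m * ((L * w - y) / 2 * P) := by rw [e1, hs']; field_simp
      _ ≤ _ := by gcongr
  have h9 : L * (k * (w * P)) ≤ (L + s / 2) * ((m : ℝ) ^ (-q) / q - ((m : ℝ) + k) ^ (-q) / q) :=
    mul_le_mul (by linarith) ((mul_le_mul_of_nonneg_left h7 k0.le).trans h6) (by positivity)
      (by linarith)
  have h10 : k * ((L * w + y) / 2 * P) < k * l m := by linarith
  have h11 := lt_of_mul_lt_mul_left h10 k0.le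
  have h12 : y * P < l m := lt_trans (mul_lt_mul_of_pos_right (by linarith) P0) h11
  rw [hP, Real.rpow_neg m0.le, ← div_eq_mul_inv, div_lt_iff₀ (by positivity)] at h12
  refine h12.trans_le (mul_le_mul_of_nonneg_left ?_ (h0 m).le)
  exact Real.rpow_le_rpow m0.le (by linarith) (by linarith)

end Pool.Agent.H.MP_f4cb44_an
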