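import Pool.Agent.H.MP_f4cb44_an.Tail

open Filter Topology Finset

namespace Pool.Agent.H.MP_f4cb44_an

lemma tailLim {l : ℕ → ℝ} (hs : Summable l) {q L : ℝ} (hq : 0 < q) (hL : 0 < L)
    (h : Tendsto (fun j : ℕ => l j * (j + 1) ^ (q + 1)) atTop (𝓝 L)) :
    Tendsto (fun j : ℕ => T l (j + 1) * (j + 1) ^ q) atTop (𝓝 (L / q)) := by
  refine tendsto_order.2 ⟨fun x hx => ?_, fun x hx => ?_⟩
  · rw [lt_div_iff₀ hq] at hx
    obtain ⟨B, hB1, hB2⟩ := exists_between (max_lt hx hL)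
    have B0 := (le_max_right _ _).trans_lt hB1
    obtain ⟨J, hJ⟩ := eventually_atTop.1 (h.eventually (lt_mem_nhds hB2))
    have t1 := ((tendsto_natCast_div_add_atTop (𝕜 := ℝ) 1).comp (tendsto_add_atTop_nat 1)).rpow_const
      (p := q) (Or.inl one_ne_zero)
    have t2 := (t1.const_mul (B / q)).eventually (lt_mem_nhds (a := x) (by
      rw [Real.one_rpow, mul_one, lt_div_iff₀ hq]; exact (le_max_left _ _).trans_lt hB1))
    filter_upwards [t2, eventually_ge_atTop J] with j h1 hj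
    have h2 := tail_ge hs hq B0.le (m := j + 1) fun i hi => (hJ i (by omega)).le
    refine h1.trans_le (le_trans (le_of_eq ?_) (mul_le_mul_of_nonneg_right h2 (by positivity)))
    simp only [Function.comp]
    push_cast
    rw [Real.div_rpow (by positivity) (by positivity), Real.rpow_neg (by positivity)]
    ring
  · rw [gt_iff_lt, div_lt_iff₀ hq] at hx
    obtain ⟨B, hB1, hB2⟩ := exists_between hx
    obtain ⟨J, hJ⟩ := eventually_atTop.1 (h.eventually (gt_mem_nhds hB1))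
    filter_upwards [eventually_ge_atTop J] with j hj
    have h2 := tail_le hs hq (hL.trans hB1).le (m := j + 1) (by omega)
      fun i hi => (hJ i (by omega)).le
    refine (mul_le_mul_of_nonneg_right h2 (by positivity)).trans_lt ?_
    push_cast
    rw [Real.rpow_neg (by positivity)]
    have : (0 : ℝ) < ((j : ℝ) + 1) ^ q := by positivity
    field_simp
    linarith

lemma bracket {l : ℕ → ℝ} (hs : Summable l) (h0 : ∀ j, 0 < l j) (ha : Antitone l) (J : ℕ) :
    ∀ᶠ ε in 𝓝[>] (0 : ℝ), 0 < ε ∧ ∃ k, J ≤ k ∧ l (k + 1) ≤ ε ∧ ε ≤ l k := by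
  classical
  filter_upwards [Ioo_mem_nhdsGT (h0 J)] with ε hε
  have ex : ∃ j, l j ≤ ε := (hs.tendsto_atTop_zero.eventually (ge_mem_nhds hε.1)).exists
  have h1 := Nat.find_spec ex
  have h2 : J < Nat.find ex := by
    by_contra c
    exact absurd ((ha (not_lt.1 c)).trans h1) (not_le.2 hε.2)
  refine ⟨hε.1, Nat.find ex - 1, by omega, by rwa [Nat.sub_add_cancel (by omega)], ?_⟩
  exact (not_le.1 (Nat.find_min ex (by omega))).le

lemma fwd {l : ℕ → ℝ} {N : ℝ → ℕ} (hN : Good l N) (hs : Summable l) (h0 : ∀ j, 0 < l j)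
    (ha : Antitone l) {d q L : ℝ} (hd : 0 < d) (hq : 0 < q) (hdq : d * (q + 1) = 1) (hL : 0 < L)
    (h : Tendsto (fun j : ℕ => l j * (j + 1) ^ (q + 1)) atTop (𝓝 L)) :
    Tendsto (fun ε => N ε * ε ^ d) (𝓝[>] 0) (𝓝 (L ^ d + L / q * L ^ (d - 1))) := by
  have d1 : d ≤ 1 := by nlinarith
  have ta : Tendsto (fun j : ℕ => (j + 1) * l j ^ d) atTop (𝓝 (L ^ d)) :=
    (h.rpow_const (p := d) (Or.inl hL.ne')).congr fun j => pw hdq (h0 j) j
  have tR : Tendsto (fun j : ℕ => T l (j + 1) / (l j / l j ^ d)) atTop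
      (𝓝 (L / q * L ^ (d - 1))) := by
    refine ((tailLim hs hq hL h).mul (h.rpow_const (p := d - 1) (Or.inl hL.ne'))).congr fun j => ?_
    have := h0 j
    have j0 : (0 : ℝ) < j + 1 := by positivity
    rw [Real.rpow_sub (by positivity), pw hdq this, Real.rpow_one, Real.rpow_add j0, Real.rpow_one]
    field_simp
  set A := L ^ d
  set μ := L / q * L ^ (d - 1)
  have μ0 : 0 < μ := by positivity
  have f0 : ∀ j, 0 < l j / l j ^ d := fun j => by have := h0 j; positivity
  refine tendsto_order.2 ⟨fun x hx => ?_, fun x hx => ?_⟩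
  · set s := min ((A + μ - x) / 4) μ with hs'
    have s0 : 0 < s := lt_min (by linarith) μ0
    have s1 : s ≤ (A + μ - x) / 4 := min_le_left _ _
    have s2 : s ≤ μ := min_le_right _ _
    obtain ⟨J, hJ⟩ := eventually_atTop.1 ((ta.eventually (lt_mem_nhds (a := A - s) (by linarith))).and
      (tR.eventually (lt_mem_nhds (a := μ - s) (by linarith))))
    filter_upwards [bracket hs h0 ha J, small hd s0] with ε ⟨e0, k, hk, k1, k2⟩ h1
    have h2 := LB hN h0 ha hd.le e0 (sub_nonneg.2 s2) (m := k + 1)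
      (fun j hj => k2.trans (ha (by omega))) k1
      (lt_of_le_of_lt (mul_le_mul_of_nonneg_left (mono d1 e0 k2) (sub_nonneg.2 s2))
        ((lt_div_iff₀ (f0 k)).1 (hJ k hk).2))
      (fun j hj => (lt_div_iff₀ (f0 j)).1 (hJ j (by omega)).2)
    have h3 := (hJ (k + 1) (by omega)).1
    have h4 : l (k + 1) ^ d ≤ ε ^ d := Real.rpow_le_rpow (h0 _).le k1 hd.le
    have h5 : (((k + 1 : ℕ) : ℝ) + 1) * l (k + 1) ^ d ≤ (((k + 1 : ℕ) : ℝ) + 1) * ε ^ d := by gcongr
    linarith
  · set s := (x - A - μ) / 3 with hs'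
    have s0 : 0 < s := by linarith
    obtain ⟨J, hJ⟩ := eventually_atTop.1 ((ta.eventually (gt_mem_nhds (a := A + s) (by linarith))).and
      (tR.eventually (gt_mem_nhds (a := μ + s) (by linarith))))
    filter_upwards [bracket hs h0 ha J, small hd s0] with ε ⟨e0, k, hk, k1, k2⟩ h1
    have h2 := hN.1 ε e0 (k + 1 + 1)
    have h3 := ((div_lt_iff₀ (f0 _)).1 (hJ (k + 1) (by omega)).2).trans_le
      (mul_le_mul_of_nonneg_left (mono d1 (h0 _) k1) (by linarith))
    have h4 : ε ^ d ≤ l k ^ d := Real.rpow_le_rpow e0.le k2 hd.le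
    have h5 : ((k : ℝ) + 1) * ε ^ d ≤ ((k : ℝ) + 1) * l k ^ d := by gcongr
    have h6 := (hJ k hk).1
    have e1 : 0 < ε ^ d := by positivity
    have h7 : N ε * ε ^ d * (ε / ε ^ d) < (((k : ℝ) + 1 + 1) * ε ^ d + (μ + s)) * (ε / ε ^ d) := by
      push_cast at h2
      calc _ = N ε * ε := by field_simp
        _ < ((k : ℝ) + 1 + 1) * ε + (μ + s) * (ε / ε ^ d) := by linarith
        _ = _ := by field_simp
    have h8 := lt_of_mul_lt_mul_right h7 (by positivity)
    linarith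

end Pool.Agent.H.MP_f4cb44_an
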