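import Mathlib

open Filter Topology Finset

namespace Pool.Agent.H.MP_f4cb44_an

/-- Tail sum. -/
noncomputable def T (l : ℕ → ℝ) (m : ℕ) : ℝ := ∑' i, l (i + m)

lemma T_succ {l : ℕ → ℝ} (hs : Summable l) (m : ℕ) : T l m = l m + T l (m + 1) := by
  have h := ((summable_nat_add_iff m).2 hs).tsum_eq_zero_add
  simp only [T, h, zero_add]
  congr 2
  ext i
  congr 1
  omega

lemma T_add {l : ℕ → ℝ} (hs : Summable l) (ha : Antitone l) (m k : ℕ) :
    T l m ≤ k * l m + T l (m + k) := by
  induction k with
  | zero => simp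
  | succ k ih =>
    have h1 := T_succ hs (m + k)
    have h2 := ha (Nat.le_add_right m k)
    rw [← add_assoc]
    push_cast
    linarith

lemma upper {l : ℕ → ℝ} (hs : Summable l) (h0 : ∀ j, 0 ≤ l j) {ε : ℝ} (hε : 0 ≤ ε) {N : ℕ}
    (γ : Fin N → Set ℕ) (hd : Pairwise (Function.onFun Disjoint γ))
    (hγ : ∀ i, ε ≤ ∑' j : γ i, l j) (m : ℕ) : N * ε ≤ m * ε + T l m := by
  classical
  set w : ℕ → ℝ := fun j => if j < m then ε else l j with hw
  have w0 : ∀ j, 0 ≤ w j := fun j => by simp only [hw]; split_ifs; exacts [hε, h0 j]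
  have e1 : (fun i => w (i + m)) = fun i => l (i + m) := by ext i; simp [hw]
  have ws : Summable w := (summable_nat_add_iff m).1 (by rw [e1]; exact (summable_nat_add_iff m).2 hs)
  have e2 : ∑' j, w j = m * ε + T l m := by
    rw [← ws.sum_add_tsum_nat_add m, e1, sum_congr rfl (g := fun _ => ε)]
    · simp [T]
    · intro i hi
      simp [hw, mem_range.1 hi]
  have h1 : ∀ i, ε ≤ ∑' j, (γ i).indicator w j := fun i => by
    by_cases h : ∃ j ∈ γ i, j < m
    · obtain ⟨j, hj, hjm⟩ := h
      have := (ws.indicator (γ i)).le_tsum j fun k _ => Set.indicator_nonneg (fun a _ => w0 a) k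
      rwa [Set.indicator_of_mem hj, show w j = ε by simp [hw, hjm]] at this
    · rw [← _root_.tsum_subtype]
      refine (hγ i).trans (le_of_eq (tsum_congr fun j => ?_))
      have : ¬ (j : ℕ) < m := fun c => h ⟨j, j.2, c⟩
      simp [hw, this]
  have h2 : ∑ i, ∑' j, (γ i).indicator w j ≤ ∑' j, w j := by
    rw [← Summable.tsum_finsetSum fun i _ => ws.indicator (γ i)]
    refine Summable.tsum_le_tsum (fun j => ?_) (summable_sum fun i _ => ws.indicator (γ i)) ws
    by_cases h : ∃ i, j ∈ γ i
    · obtain ⟨i, hi⟩ := h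
      rw [sum_eq_single i, Set.indicator_of_mem hi]
      · intro b _ hb
        exact Set.indicator_of_notMem (fun c => Set.disjoint_left.1 (hd hb) c hi) _
      · simp
    · rw [sum_eq_zero fun i _ => Set.indicator_of_notMem (fun c => h ⟨i, c⟩) _]
      exact w0 j
  have h3 := sum_le_sum fun i (_ : i ∈ univ) => h1 i
  simp only [sum_const, card_univ, Fintype.card_fin, nsmul_eq_mul] at h3
  linarith

open Classical in
/-- First-fit choice. -/
noncomputable def pick (K : ℕ) (ε : ℝ) (s : ℕ → ℝ) (x : ℝ) : ℕ :=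
  if h : ∃ b, b < K ∧ s b + x ≤ ε then h.choose else K

/-- Contents of the bins. -/
noncomputable def st (K : ℕ) (ε : ℝ) (x : ℕ → ℝ) : ℕ → ℕ → ℝ
  | 0 => fun _ => 0
  | n + 1 => fun b => st K ε x n b + if pick K ε (st K ε x n) (x n) = b then x n else 0

lemma greedy {l : ℕ → ℝ} (hs : Summable l) (h0 : ∀ j, 0 ≤ l j) {ε : ℝ} (hε : 0 ≤ ε) (m K : ℕ)
    (h1 : K * ε < T l m) (h2 : ∀ j, m ≤ j → K * l j < T l (j + 1)) :
    ∃ a : ℕ → ℕ, ∀ b < K, ε ≤ ∑' n, if a n = b then l (n + m) else 0 := by
  set x : ℕ → ℝ := fun n => l (n + m) with hx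
  set a : ℕ → ℕ := fun n => pick K ε (st K ε x n) (x n) with ha
  have i1 : ∀ n, (∀ b < K, st K ε x n b ≤ ε) ∧ K * ε - ∑ b ∈ range K, st K ε x n b < T l (n + m) := by
    intro n
    induction n with
    | zero => exact ⟨fun _ _ => hε, by simpa [st] using h1⟩
    | succ n ih =>
      have e := T_succ hs (n + m)
      rw [show n + 1 + m = n + m + 1 by omega]
      by_cases h : ∃ b, b < K ∧ st K ε x n b + x n ≤ ε
      · have hp : pick K ε (st K ε x n) (x n) = h.choose := by simp [pick, h]
        refine ⟨fun b hb => ?_, ?_⟩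
        · simp only [st, hp]
          split_ifs with c
          · exact c ▸ h.choose_spec.2
          · simpa using ih.1 b hb
        · simp only [st, hp, sum_add_distrib, sum_ite_eq, mem_range, h.choose_spec.1, if_true]
          have := ih.2
          simp only [hx] at this ⊢
          linarith
      · have hp : pick K ε (st K ε x n) (x n) = K := by simp only [pick, h, dite_false]
        have e2 : ∀ b < K, st K ε x (n + 1) b = st K ε x n b := fun b hb => by
          simp [st, hp, hb.ne']
        refine ⟨fun b hb => (e2 b hb).trans_le (ih.1 b hb), ?_⟩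
        have h3 := sum_le_sum (s := range K) (f := fun _ => ε - x n) (g := st K ε x (n + 1))
          fun b hb => by
            have hb := mem_range.1 hb
            rw [e2 b hb]
            have : ¬ _ := fun c => h ⟨b, hb, c⟩
            linarith
        simp only [sum_const, card_range, nsmul_eq_mul] at h3
        have := h2 (n + m) (by omega)
        simp only [hx] at h3
        linarith
  have i2 : ∀ n b, st K ε x n b = ∑ i ∈ range n, if a i = b then x i else 0 := by
    intro n b
    induction n with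
    | zero => simp [st]
    | succ n ih => rw [sum_range_succ, ← ih]; rfl
  refine ⟨a, fun b hb => ?_⟩
  have p0 : ∀ i, 0 ≤ if a i = b then x i else 0 := fun i => by
    split_ifs; exacts [h0 _, le_rfl]
  have ps : Summable fun i => if a i = b then x i else 0 :=
    Summable.of_nonneg_of_le p0 (fun i => by split_ifs; exacts [le_rfl, h0 _])
      ((summable_nat_add_iff m).2 hs)
  have t1 : Tendsto (fun n => ε - T l (n + m)) atTop (𝓝 (ε - 0)) :=
    (((tendsto_sum_nat_add l).comp (tendsto_add_atTop_nat m))).const_sub ε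
  rw [sub_zero] at t1
  refine le_of_tendsto' t1 fun n => ?_
  have h3 := single_le_sum (s := range K) (f := fun b => ε - st K ε x n b)
    (fun c hc => sub_nonneg.2 ((i1 n).1 c (mem_range.1 hc))) (mem_range.2 hb)
  simp only [sum_sub_distrib, sum_const, card_range, nsmul_eq_mul] at h3
  have h4 := ps.sum_le_tsum (range n) fun i _ => p0 i
  rw [← i2] at h4
  linarith [(i1 n).2]

lemma lower {l : ℕ → ℝ} (hs : Summable l) (h0 : ∀ j, 0 ≤ l j) {ε : ℝ} (hε : 0 ≤ ε) (m K : ℕ)
    (hm : ∀ j < m, ε ≤ l j) (h1 : K * ε < T l m) (h2 : ∀ j, m ≤ j → K * l j < T l (j + 1))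
    (hp : 0 < m + K) :
    ∃ γ : Fin (m + K) → Set ℕ, Pairwise (Function.onFun Disjoint γ) ∧ ⋃ i, γ i = Set.univ ∧
      ∀ i, ε ≤ ∑' j : γ i, l j := by
  obtain ⟨a, ha⟩ := greedy hs h0 hε m K h1 h2
  set g : ℕ → ℕ := fun j => min (if j < m then j else m + a (j - m)) (m + K - 1) with hg
  refine ⟨fun i => {j | g j = i}, fun i k hik => ?_, ?_, fun i => ?_⟩
  · exact Set.disjoint_left.2 fun j h1 h2 => hik (Fin.ext (h1.symm.trans h2))
  · refine Set.eq_univ_of_forall fun j => Set.mem_iUnion.2 ⟨⟨g j, ?_⟩, rfl⟩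
    simp only [hg]; omega
  · rw [_root_.tsum_subtype]
    have q0 : ∀ k, 0 ≤ {j | g j = i}.indicator l k := Set.indicator_nonneg fun a _ => h0 a
    have qs := hs.indicator {j | g j = i}
    have hi := i.2
    by_cases h : (i : ℕ) < m
    · have := qs.le_tsum i fun k _ => q0 k
      rw [Set.indicator_of_mem (by simp only [hg, Set.mem_ofPred_eq, h, if_true]; omega)] at this
      exact (hm i h).trans this
    · rw [← qs.sum_add_tsum_nat_add m]
      refine (ha (i - m) (by omega)).trans (le_add_of_nonneg_of_le (sum_nonneg fun k _ => q0 k) ?_)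
      have qs2 := (summable_nat_add_iff m).2 qs
      have p1 : ∀ n, (if a n = i - m then l (n + m) else 0) ≤ {j | g j = i}.indicator l (n + m) :=
        fun n => by
          split_ifs with c
          · rw [Set.indicator_of_mem]
            simp only [hg, Set.mem_ofPred_eq, Nat.add_sub_cancel, c]
            rw [if_neg (by omega)]; omega
          · exact q0 _
      exact Summable.tsum_le_tsum p1 (Summable.of_nonneg_of_le
        (fun n => by split_ifs; exacts [h0 _, le_rfl]) p1 qs2) qs2

end Pool.Agent.H.MP_f4cb44_an
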