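import Pool.Agent.H.MP_f4cb44_an.Pack

open Filter Topology Finset

namespace Pool.Agent.H.MP_f4cb44_an

lemma mvt {q x y : ℝ} (hq : 0 < q) (hx : 0 < x) (hxy : x < y) :
    (y - x) * y ^ (-(q + 1)) ≤ x ^ (-q) / q - y ^ (-q) / q ∧
      x ^ (-q) / q - y ^ (-q) / q ≤ (y - x) * x ^ (-(q + 1)) := by
  have hd : ∀ t, 0 < t → HasDerivAt (fun t : ℝ => t ^ (-q)) (-q * t ^ (-q - 1)) t := fun t ht =>
    Real.hasDerivAt_rpow_const (Or.inl ht.ne')
  obtain ⟨c, hc, e⟩ := exists_hasDerivAt_eq_slope (fun t : ℝ => t ^ (-q))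
    (fun t => -q * t ^ (-q - 1)) hxy
    (fun t ht => (hd t (hx.trans_le ht.1)).continuousAt.continuousWithinAt)
    (fun t ht => hd t (hx.trans ht.1))
  have h1 : x ^ (-q) / q - y ^ (-q) / q = (y - x) * c ^ (-(q + 1)) := by
    have : y - x ≠ 0 := (sub_pos.2 hxy).ne'
    rw [eq_div_iff this] at e
    rw [show -(q + 1) = -q - 1 by ring]
    field_simp
    linarith
  rw [h1]
  have h2 : -(q + 1) ≤ 0 := by linarith
  exact ⟨mul_le_mul_of_nonneg_left (Real.rpow_le_rpow_of_nonpos (hx.trans hc.1) hc.2.le h2)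
    (sub_pos.2 hxy).le, mul_le_mul_of_nonneg_left (Real.rpow_le_rpow_of_nonpos hx hc.1.le h2)
    (sub_pos.2 hxy).le⟩

lemma tel {q x : ℝ} (hq : 0 < q) (hx : 0 < x) :
    HasSum (fun i : ℕ => (i + x) ^ (-q) / q - (i + x + 1) ^ (-q) / q) (x ^ (-q) / q) := by
  rw [hasSum_iff_tendsto_nat_of_nonneg]
  · have e : ∀ n : ℕ, ∑ i ∈ range n, (((i : ℝ) + x) ^ (-q) / q - (i + x + 1) ^ (-q) / q) =
        x ^ (-q) / q - (n + x) ^ (-q) / q := fun n => by
      induction n with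
      | zero => simp
      | succ n ih => rw [sum_range_succ, ih]; push_cast; rw [add_right_comm (n : ℝ) 1 x]; ring
    simp only [e]
    have t := (((tendsto_rpow_neg_atTop hq).comp
      (tendsto_atTop_add_const_right _ x tendsto_natCast_atTop_atTop)).div_const q).const_sub
      (x ^ (-q) / q)
    simpa using t
  · intro i
    have h1 : (0 : ℝ) < i + x := by positivity
    exact le_trans (mul_nonneg (by linarith) (by positivity)) (mvt hq h1 (lt_add_one _)).1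

lemma tail_le {l : ℕ → ℝ} (hs : Summable l) {q B : ℝ} (hq : 0 < q) (hB : 0 ≤ B) {m : ℕ}
    (hm : 0 < m) (h : ∀ i, m ≤ i → l i * (i + 1) ^ (q + 1) ≤ B) : T l m ≤ B * (m ^ (-q) / q) := by
  have m0 : (0 : ℝ) < m := by exact_mod_cast hm
  refine hasSum_le (fun i => ?_) ((summable_nat_add_iff m).2 hs).hasSum ((tel hq m0).mul_left B)
  have h1 : (0 : ℝ) < i + m := by positivity
  have h2 := (mvt hq h1 (lt_add_one _)).1
  have h3 := h (i + m) (by omega)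
  push_cast at h3
  rw [← le_div_iff₀ (by positivity), div_eq_mul_inv, ← Real.rpow_neg (by positivity)] at h3
  rw [add_sub_cancel_left, one_mul] at h2
  exact h3.trans (mul_le_mul_of_nonneg_left h2 hB)

lemma tail_ge {l : ℕ → ℝ} (hs : Summable l) {q B : ℝ} (hq : 0 < q) (hB : 0 ≤ B) {m : ℕ}
    (h : ∀ i, m ≤ i → B ≤ l i * (i + 1) ^ (q + 1)) : B * ((m + 1) ^ (-q) / q) ≤ T l m := by
  have m0 : (0 : ℝ) < m + 1 := by positivity
  refine hasSum_le (fun i => ?_) ((tel hq m0).mul_left B) ((summable_nat_add_iff m).2 hs).hasSum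
  have h1 : (0 : ℝ) < i + (m + 1) := by positivity
  have h2 := (mvt hq h1 (lt_add_one _)).2
  have h3 := h (i + m) (by omega)
  push_cast at h3
  rw [← div_le_iff₀ (by positivity), div_eq_mul_inv, ← Real.rpow_neg (by positivity),
    add_assoc] at h3
  rw [add_sub_cancel_left, one_mul] at h2
  exact (mul_le_mul_of_nonneg_left h2 hB).trans h3

lemma summ {l : ℕ → ℝ} (h0 : ∀ j, 0 ≤ l j) {q B : ℝ} (hq : 0 < q)
    (h : ∀ᶠ i : ℕ in atTop, l i * (i + 1) ^ (q + 1) ≤ B) : Summable l := by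
  have h1 : Summable fun n : ℕ => ((n + 1 : ℕ) : ℝ) ^ (-(q + 1)) :=
    (summable_nat_add_iff 1).2 (Real.summable_nat_rpow.2 (by linarith))
  refine Summable.of_norm_bounded_eventually_nat (h1.mul_left B) ?_
  filter_upwards [h] with i h3
  rw [← le_div_iff₀ (by positivity), div_eq_mul_inv, ← Real.rpow_neg (by positivity)] at h3
  rw [Real.norm_of_nonneg (h0 i)]
  exact_mod_cast h3

lemma mono {d x y : ℝ} (hd : d ≤ 1) (hx : 0 < x) (hxy : x ≤ y) : x / x ^ d ≤ y / y ^ d := by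
  have h : ∀ t : ℝ, 0 < t → t / t ^ d = t ^ (1 - d) := fun t ht => by
    rw [Real.rpow_sub ht, Real.rpow_one]
  rw [h x hx, h y (hx.trans_le hxy)]
  exact Real.rpow_le_rpow hx.le hxy (by linarith)

/-- The two properties of the mass distribution function that the analysis uses. -/
def Good (l : ℕ → ℝ) (N : ℝ → ℕ) : Prop :=
  (∀ ε, 0 < ε → ∀ m : ℕ, N ε * ε ≤ m * ε + T l m) ∧
    ∀ ε, 0 < ε → ∀ m K : ℕ, (∀ j < m, ε ≤ l j) → K * ε < T l m →
      (∀ j, m ≤ j → K * l j < T l (j + 1)) → m + K ≤ N ε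

lemma LB {l : ℕ → ℝ} {N : ℝ → ℕ} (hN : Good l N) (h0 : ∀ j, 0 < l j) (ha : Antitone l)
    {d ε μ : ℝ} (hd : 0 ≤ d) (hε : 0 < ε) (hμ : 0 ≤ μ) {m : ℕ} (h1 : ∀ j < m, ε ≤ l j)
    (h2 : l m ≤ ε) (h3 : μ * (ε / ε ^ d) < T l m)
    (h4 : ∀ j, m ≤ j → μ * (l j / l j ^ d) < T l (j + 1)) :
    m * ε ^ d + μ - ε ^ d ≤ N ε * ε ^ d := by
  have e0 : 0 < ε ^ d := by positivity
  have k1 := Nat.floor_le (a := μ / ε ^ d) (by positivity)
  have k2 := Nat.lt_floor_add_one (μ / ε ^ d)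
  have h5 := hN.2 ε hε m ⌊μ / ε ^ d⌋₊ h1 (by
    refine lt_of_le_of_lt ?_ h3
    calc _ ≤ μ / ε ^ d * ε := by gcongr
      _ = _ := by ring) (fun j hj => by
    refine lt_of_le_of_lt ?_ (h4 j hj)
    have := h0 j
    have h6 : l j ≤ ε := (ha hj).trans h2
    calc _ ≤ μ / ε ^ d * l j := by gcongr
      _ ≤ μ / l j ^ d * l j := by gcongr
      _ = _ := by ring)
  have h6 : (m : ℝ) + ⌊μ / ε ^ d⌋₊ ≤ N ε := by exact_mod_cast h5
  rw [div_lt_iff₀ e0] at k2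
  nlinarith

lemma small {d s : ℝ} (hd : 0 < d) (hs : 0 < s) : ∀ᶠ ε in 𝓝[>] (0 : ℝ), ε ^ d < s := by
  have h : Tendsto (fun ε : ℝ => ε ^ d) (𝓝[>] 0) (𝓝 (0 ^ d)) :=
    ((Real.continuousAt_rpow_const 0 d (Or.inr hd.le)).tendsto).mono_left nhdsWithin_le_nhds
  rw [Real.zero_rpow hd.ne'] at h
  exact h.eventually (gt_mem_nhds hs)

lemma pw {d q x : ℝ} (hdq : d * (q + 1) = 1) (hx : 0 < x) (j : ℕ) :
    (x * (j + 1) ^ (q + 1)) ^ d = (j + 1) * x ^ d := by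
  rw [Real.mul_rpow hx.le (by positivity), ← Real.rpow_mul (by positivity), mul_comm (q + 1), hdq,
    Real.rpow_one, mul_comm]

end Pool.Agent.H.MP_f4cb44_an
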